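import Pool.Agent.H58.S13.Fields
import Pool.Agent.H48.S13.Red

/-!
# S13: an explicit smooth pencil over `ℚ` in class (D)

`f = - x_0^2 + 2 x_0 x_1 - 4 x_1 x_2 + 2 x_2^2 - x_3^2 + 3 x_4^2`,
`g = 2 x_0 x_1 - x_1^2 - 2 x_0 x_2 + 2 x_2^2 + x_3^2`; `det (f + T g) = - 3 (T^3 - 2) (T - 1)`,
the discriminant of `f + θ g`, `θ^3 = 2`, is `-108` up to squares; `(1, 2, 1, 0, 1)` is a common zero; the
two degenerate quadrics over `ℚ` (`T = 1` and `T = ∞`) have the discriminants `3` and `-1`.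
-/

set_option autoImplicit false

namespace Pool.Agent.H90.S13

open Matrix Polynomial Pool.Agent.H58.S13 Pool.Agent.H48.S13

/-- matrix of `f` -/
def exA : Matrix (Fin 5) (Fin 5) ℚ :=
  !![-1, 1, 0, 0, 0; 1, 0, -2, 0, 0; 0, -2, 2, 0, 0; 0, 0, 0, -1, 0; 0, 0, 0, 0, 3]

/-- matrix of `g` -/
def exB : Matrix (Fin 5) (Fin 5) ℚ :=
  !![0, 1, -1, 0, 0; 1, -1, 0, 0, 0; -1, 0, 2, 0, 0; 0, 0, 0, 1, 0; 0, 0, 0, 0, 0]

/-- the member `A + t B` -/
def exM {R : Type*} [CommRing R] (t : R) : Matrix (Fin 5) (Fin 5) R :=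
  !![-1, 1 + t, -t, 0, 0; 1 + t, -t, -2, 0, 0; -t, -2, 2 + 2 * t, 0, 0; 0, 0, 0, -1 + t, 0; 0, 0, 0, 0, 3]

theorem exA_symm : exAᵀ = exA := by
  ext i j
  fin_cases i <;> fin_cases j <;> rfl

theorem exB_symm : exBᵀ = exB := by
  ext i j
  fin_cases i <;> fin_cases j <;> rfl

theorem det_last {R : Type*} [CommRing R] {n : ℕ} (S : Matrix (Fin (n + 1)) (Fin (n + 1)) R)
    (h : ∀ j, j ≠ Fin.last n → S (Fin.last n) j = 0) :
    S.det = S (Fin.last n) (Fin.last n) * (S.submatrix Fin.castSucc Fin.castSucc).det := by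
  rw [Matrix.det_succ_row S (Fin.last n), Finset.sum_eq_single (Fin.last n)]
  · rw [Fin.succAbove_last, Fin.val_last, ← two_mul, pow_mul, neg_one_sq, one_pow, one_mul]
  · intro j _ hj
    rw [h j hj]
    ring
  · intro h
    exact absurd (Finset.mem_univ _) h

theorem det4 {R : Type*} [CommRing R] (a b c d e f g h i x y : R) :
    (!![a, b, c, 0; d, e, f, 0; g, h, i, 0; 0, 0, 0, x] : Matrix (Fin 4) (Fin 4) R).det =
      x * (a * e * i - a * f * h - b * d * i + b * f * g + c * d * h - c * e * g) := by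
  rw [det_last _ (by
    intro j hj
    fin_cases j
    · rfl
    · rfl
    · rfl
    · exact absurd rfl hj), Matrix.det_fin_three]
  rfl

theorem det4' {R : Type*} [CommRing R] (a b c d x y : R) :
    (!![a, b, 0, 0; c, d, 0, 0; 0, 0, x, 0; 0, 0, 0, y] : Matrix (Fin 4) (Fin 4) R).det =
      y * x * (a * d - b * c) := by
  rw [det4 a b 0 c d 0 0 0 x y y]
  ring

theorem det5 {R : Type*} [CommRing R] (a b c d e f g h i x y : R) :
    (!![a, b, c, 0, 0; d, e, f, 0, 0; g, h, i, 0, 0; 0, 0, 0, x, 0; 0, 0, 0, 0, y] :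
      Matrix (Fin 5) (Fin 5) R).det =
      y * x * (a * e * i - a * f * h - b * d * i + b * f * g + c * d * h - c * e * g) := by
  rw [det_last _ (by
    intro j hj
    fin_cases j
    · rfl
    · rfl
    · rfl
    · rfl
    · exact absurd rfl hj)]
  have e1 : (!![a, b, c, 0, 0; d, e, f, 0, 0; g, h, i, 0, 0; 0, 0, 0, x, 0; 0, 0, 0, 0, y] :
      Matrix (Fin 5) (Fin 5) R).submatrix Fin.castSucc Fin.castSucc =
      !![a, b, c, 0; d, e, f, 0; g, h, i, 0; 0, 0, 0, x] := by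
    ext u v
    fin_cases u <;> fin_cases v <;> rfl
  have e2 : (!![a, b, c, 0, 0; d, e, f, 0, 0; g, h, i, 0, 0; 0, 0, 0, x, 0; 0, 0, 0, 0, y] :
      Matrix (Fin 5) (Fin 5) R) (Fin.last 4) (Fin.last 4) = y := rfl
  rw [e1, e2, det4 a b c d e f g h i x y]
  ring

theorem exM_det {R : Type*} [CommRing R] (t : R) : (exM t).det = -3 * ((t ^ 3 - 2) * (t - 1)) := by
  unfold exM
  rw [det5]
  ring

theorem exM_minor {R : Type*} [CommRing R] (t : R) (i : Fin 5) :
    ((exM t).submatrix i.succAbove i.succAbove).det =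
      ![12 - 6 * t - 6 * t ^ 3, 6 - 3 * t ^ 2 - 3 * t ^ 3, 3 - 3 * t ^ 3, 3 * (2 - t ^ 3),
        -((t ^ 3 - 2) * (t - 1))] i := by
  fin_cases i
  · have e1 : (exM t).submatrix (Fin.succAbove 0) (Fin.succAbove 0) =
        !![-t, -2, 0, 0; -2, 2 + 2 * t, 0, 0; 0, 0, -1 + t, 0; 0, 0, 0, 3] := by
      ext u v
      fin_cases u <;> fin_cases v <;> rfl
    change ((exM t).submatrix (Fin.succAbove 0) (Fin.succAbove 0)).det = 12 - 6 * t - 6 * t ^ 3
    rw [e1, det4']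
    ring
  · have e1 : (exM t).submatrix (Fin.succAbove 1) (Fin.succAbove 1) =
        !![-1, -t, 0, 0; -t, 2 + 2 * t, 0, 0; 0, 0, -1 + t, 0; 0, 0, 0, 3] := by
      ext u v
      fin_cases u <;> fin_cases v <;> rfl
    change ((exM t).submatrix (Fin.succAbove 1) (Fin.succAbove 1)).det = 6 - 3 * t ^ 2 - 3 * t ^ 3
    rw [e1, det4']
    ring
  · have e1 : (exM t).submatrix (Fin.succAbove 2) (Fin.succAbove 2) =
        !![-1, 1 + t, 0, 0; 1 + t, -t, 0, 0; 0, 0, -1 + t, 0; 0, 0, 0, 3] := by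
      ext u v
      fin_cases u <;> fin_cases v <;> rfl
    change ((exM t).submatrix (Fin.succAbove 2) (Fin.succAbove 2)).det = 3 - 3 * t ^ 3
    rw [e1, det4']
    ring
  · have e1 : (exM t).submatrix (Fin.succAbove 3) (Fin.succAbove 3) =
        !![-1, 1 + t, -t, 0; 1 + t, -t, -2, 0; -t, -2, 2 + 2 * t, 0; 0, 0, 0, 3] := by
      ext u v
      fin_cases u <;> fin_cases v <;> rfl
    change ((exM t).submatrix (Fin.succAbove 3) (Fin.succAbove 3)).det = 3 * (2 - t ^ 3)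
    rw [e1, det4 _ _ _ _ _ _ _ _ _ _ (1 : R)]
    ring
  · have e1 : (exM t).submatrix (Fin.succAbove 4) (Fin.succAbove 4) =
        !![-1, 1 + t, -t, 0; 1 + t, -t, -2, 0; -t, -2, 2 + 2 * t, 0; 0, 0, 0, -1 + t] := by
      ext u v
      fin_cases u <;> fin_cases v <;> rfl
    change ((exM t).submatrix (Fin.succAbove 4) (Fin.succAbove 4)).det = -((t ^ 3 - 2) * (t - 1))
    rw [e1, det4 _ _ _ _ _ _ _ _ _ _ (1 : R)]
    ring

theorem ex_pen {R : Type*} [CommRing R] [Algebra ℚ R] (t : R) : pen exA exB t = exM t := by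
  have h2 : algebraMap ℚ R 2 = 2 := map_ofNat _ 2
  have h3 : algebraMap ℚ R 3 = 3 := map_ofNat _ 3
  unfold pen exA exB exM
  ext u v
  fin_cases u <;> fin_cases v <;> simp [h2, h3] <;> ring

theorem ex_PP : PP exA exB = C (-3 : ℚ) * (cub 0 0 (-2) * (X - C 1)) := by
  apply Polynomial.funext
  intro x
  rw [PP_eval]
  have e1 : exA + x • exB = exM x := by
    have := ex_pen (R := ℚ) x
    unfold pen at this
    rw [← this]
    ext u v
    simp
  rw [e1, exM_det]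
  unfold cub
  simp only [eval_mul, eval_C, eval_add, eval_pow, eval_X, eval_sub]
  ring

theorem ex_irr : Irreducible (cub 0 0 (-2) : ℚ[X]) := by
  have e : (cub 0 0 (-2) : ℚ[X]) = X ^ 3 - C 2 := by
    unfold cub
    simp
    ring
  rw [e]
  refine X_pow_sub_C_irreducible_of_prime (by norm_num) fun b hb => ?_
  have hb0 : b ≠ 0 := by
    rintro rfl
    norm_num at hb
  have h1 : padicValRat 2 (b ^ 3) = 3 * padicValRat 2 b := by
    rw [padicValRat.pow]
    rfl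
  have h2 : padicValRat 2 (2 : ℚ) = 1 := by
    have := padicValRat.self (p := 2) (by norm_num)
    exact_mod_cast this
  rw [hb, h2] at h1
  omega

theorem aeval_cub' {k K : Type*} [CommRing k] [CommRing K] [Algebra k K] (a b c : k) (θ : K) :
    aeval θ (cub a b c) = θ ^ 3 + algebraMap k K a * θ ^ 2 + algebraMap k K b * θ + algebraMap k K c := by
  unfold cub
  simp

theorem ex_heps (i : Fin 5) : ∃ u : AdjoinRoot (cub 0 0 (-2) : ℚ[X]),
    ((pen exA exB (AdjoinRoot.root (cub 0 0 (-2) : ℚ[X]))).submatrix i.succAbove i.succAbove).det =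
      algebraMap ℚ (AdjoinRoot (cub 0 0 (-2) : ℚ[X])) (dis 0 0 (-2)) * u ^ 2 := by
  obtain ⟨θ, hθ⟩ : ∃ θ, θ = AdjoinRoot.root (cub 0 0 (-2) : ℚ[X]) := ⟨_, rfl⟩
  have h3 : θ ^ 3 = 2 := by
    have h1 : aeval θ (cub 0 0 (-2) : ℚ[X]) = 0 := by
      rw [hθ, AdjoinRoot.aeval_eq, AdjoinRoot.mk_self]
    rw [aeval_cub', map_zero, map_neg] at h1
    have h2 : algebraMap ℚ (AdjoinRoot (cub 0 0 (-2) : ℚ[X])) 2 = 2 := map_ofNat _ 2
    rw [h2] at h1
    linear_combination h1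
  have hd : algebraMap ℚ (AdjoinRoot (cub 0 0 (-2) : ℚ[X])) (dis 0 0 (-2)) = -108 := by
    have e : (dis 0 0 (-2) : ℚ) = -108 := by
      unfold dis
      norm_num
    rw [e, map_neg]
    have e2 : algebraMap ℚ (AdjoinRoot (cub 0 0 (-2) : ℚ[X])) 108 = 108 := map_ofNat _ 108
    rw [e2]
  have h6 : algebraMap ℚ (AdjoinRoot (cub 0 0 (-2) : ℚ[X])) (1 / 6) * 6 = 1 := by
    have e : algebraMap ℚ (AdjoinRoot (cub 0 0 (-2) : ℚ[X])) 6 = 6 := map_ofNat _ 6
    rw [← e, ← map_mul]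
    norm_num
  obtain ⟨w, hw⟩ : ∃ w, w = algebraMap ℚ (AdjoinRoot (cub 0 0 (-2) : ℚ[X])) (1 / 6) := ⟨_, rfl⟩
  rw [← hw] at h6
  rw [← hθ, ex_pen, exM_minor, hd]
  have h36 : 36 * w ^ 2 = 1 := by
    have : (w * 6) ^ 2 = 1 := by rw [h6, one_pow]
    linear_combination this
  refine ⟨![θ ^ 2 * w, θ * w, w, 0, 0] i, ?_⟩
  fin_cases i
  · change 12 - 6 * θ - 6 * θ ^ 3 = -108 * (θ ^ 2 * w) ^ 2
    linear_combination (-6 + 108 * w ^ 2 * θ) * h3 + 6 * θ * h36
  · change 6 - 3 * θ ^ 2 - 3 * θ ^ 3 = -108 * (θ * w) ^ 2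
    linear_combination -3 * h3 + 3 * θ ^ 2 * h36
  · change 3 - 3 * θ ^ 3 = -108 * w ^ 2
    linear_combination -3 * h3 + 3 * h36
  · change 3 * (2 - θ ^ 3) = -108 * 0 ^ 2
    linear_combination -3 * h3
  · change -((θ ^ 3 - 2) * (θ - 1)) = -108 * 0 ^ 2
    linear_combination -(θ - 1) * h3

theorem ex_cop : IsCoprime (cub 0 0 (-2) : ℚ[X]) (X - C 1) := by
  refine (Irreducible.coprime_iff_not_dvd ex_irr).mpr fun h => ?_
  have h1 := Polynomial.natDegree_le_of_dvd h (X_sub_C_ne_zero 1)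
  rw [cub_natDegree, natDegree_X_sub_C] at h1
  omega

theorem ex_smooth : Smooth exA exB := by
  refine ⟨exA_symm, exB_symm, ?_, ?_⟩
  · rw [ex_PP]
    refine Separable.unit_mul (isUnit_C.mpr (isUnit_iff_ne_zero.mpr (by norm_num))) ?_
    exact ex_irr.separable.mul separable_X_sub_C ex_cop
  · rw [ex_PP, natDegree_C_mul (by norm_num), natDegree_mul (cub_monic _ _ _).ne_zero (X_sub_C_ne_zero 1),
      cub_natDegree, natDegree_X_sub_C]

theorem ex_dvd : (cub 0 0 (-2) : ℚ[X]) ∣ PP exA exB := by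
  rw [ex_PP]
  exact ⟨C (-3) * (X - C 1), by ring⟩

theorem ex_ndvd : ¬ (cub 0 0 (-2) : ℚ[X]) ^ 2 ∣ PP exA exB := by
  intro h
  have h1 := isUnit_of_self_mul_dvd_separable ex_smooth.2.2.1 (by rw [← sq]; exact h)
  exact ex_irr.not_isUnit h1

/-- the common zero `(1, 2, 1, 0, 1)` -/
theorem ex_zero : ∃ x : Fin 5 → ℚ, x ≠ 0 ∧ qf exA x = 0 ∧ qf exB x = 0 := by
  refine ⟨![1, 2, 1, 0, 1], ?_, ?_, ?_⟩
  · intro h
    have := congrFun h 0
    exact one_ne_zero this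
  · rw [qf_eq]
    simp [Fin.sum_univ_five, exA]
    norm_num
  · rw [qf_eq]
    simp [Fin.sum_univ_five, exB]
    norm_num

theorem ex_pen' (x : ℚ) : exA + x • exB = exM x := by
  have := ex_pen (R := ℚ) x
  unfold pen at this
  rw [← this]
  ext u v
  simp

theorem cube_ne (x : ℚ) : x ^ 3 ≠ 2 := by
  intro hb
  have h1 : padicValRat 2 (x ^ 3) = 3 * padicValRat 2 x := by
    rw [padicValRat.pow]
    rfl
  have h2 : padicValRat 2 (2 : ℚ) = 1 := by
    have := padicValRat.self (p := 2) (by norm_num)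
    exact_mod_cast this
  rw [hb, h2] at h1
  omega

theorem exB_minor : (exB.submatrix (Fin.succAbove 4) (Fin.succAbove 4)).det = -1 := by
  have e1 : exB.submatrix (Fin.succAbove 4) (Fin.succAbove 4) =
      !![0, 1, -1, 0; 1, -1, 0, 0; -1, 0, 2, 0; 0, 0, 0, 1] := by
    ext u v
    fin_cases u <;> fin_cases v <;> rfl
  rw [e1, det4 _ _ _ _ _ _ _ _ _ _ (1 : ℚ)]
  norm_num

/-- no degenerate quadric of the pencil over `ℚ` has square discriminant -/
theorem ex_nosplit (s t : ℚ) (hst : s ≠ 0 ∨ t ≠ 0) (hd : (s • exA + t • exB).det = 0) :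
    ∃ i : Fin 5, ¬ IsSquare ((s • exA + t • exB).submatrix i.succAbove i.succAbove).det := by
  rcases eq_or_ne s 0 with hs | hs
  · have ht : t ≠ 0 := hst.resolve_left (fun h => h hs)
    refine ⟨4, ?_⟩
    rw [hs, zero_smul, zero_add, Matrix.submatrix_smul, Pi.smul_apply, Pi.smul_apply, Matrix.det_smul,
      Fintype.card_fin, exB_minor]
    rintro ⟨r, hr⟩
    have h1 : 0 < t ^ 4 := by positivity
    nlinarith [mul_self_nonneg r]
  · have e1 : s • exA + t • exB = s • exM (t / s) := by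
      rw [← ex_pen', smul_add, smul_smul, mul_div_cancel₀ _ hs]
    rw [e1] at hd ⊢
    rw [Matrix.det_smul, Fintype.card_fin, exM_det] at hd
    have h1 : (t / s) ^ 3 - 2 ≠ 0 := sub_ne_zero.mpr (cube_ne _)
    have h2 : t / s = 1 := by
      have h3 := (mul_eq_zero.mp hd).resolve_left (pow_ne_zero _ hs)
      have h4 := (mul_eq_zero.mp h3).resolve_left (by norm_num)
      exact sub_eq_zero.mp ((mul_eq_zero.mp h4).resolve_left h1)
    refine ⟨3, ?_⟩
    rw [h2, Matrix.submatrix_smul, Pi.smul_apply, Pi.smul_apply, Matrix.det_smul, Fintype.card_fin,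
      exM_minor]
    rintro ⟨r, hr⟩
    have h5 : s ^ 4 * 3 = r * r := by
      rw [← hr]
      change s ^ 4 * 3 = s ^ 4 * (3 * (2 - 1 ^ 3))
      norm_num
    have hs2 : s ^ 2 ≠ 0 := pow_ne_zero _ hs
    have h6 : (r / s ^ 2) ^ 2 = 3 := by
      rw [div_pow, sq r, ← h5]
      field_simp
    have h7 : padicValRat 3 ((r / s ^ 2) ^ 2) = 2 * padicValRat 3 (r / s ^ 2) := by
      rw [padicValRat.pow]
      rfl
    have h8 : padicValRat 3 (3 : ℚ) = 1 := by
      have := padicValRat.self (p := 3) (by norm_num)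
      exact_mod_cast this
    rw [h6, h8] at h7
    omega

end Pool.Agent.H90.S13
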